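import Pool.Agent.N882.UE.Fg

/-!
# MP_e93a6a_ag: finite generation of étale motivic cohomology in negative weights, explicit schemes

`A n i X = H^i(X_et, ℤ^c(n))` for `n < 0`, `i ∈ ℤ` and the schemes `X` over `ℤ`. `FT True X` means that `X`
is an arithmetic scheme (separated and of finite type over `ℤ`). `IsEtMot A` lists the known properties
of these groups (Geisser, Morin) which are used. `sysS ℤ E` is the affine scheme over `ℤ` given by the
bilinear equations `∑_{(i, j) ∈ E_l} x_i y_j = 0`, `l = 1, …, c`; `few ℤ E` is the bilinear form
`∑_{(i, j) ∈ E} x_i y_j`; and `tripS ℤ H` is the affine cubic hypersurface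
`∑_{(i, j, l) ∈ H} x_i y_j z_l = 1` over `ℤ`.
-/

set_option autoImplicit false

open CategoryTheory AlgebraicGeometry Pool.Agent.Y116.UV Pool.Agent.N882.UE
  Pool.Agent.Q282.UZ

namespace Pool.Agent.Results.MP_e93a6a_ag.FiniteGenerationUniversal

/-- All local rings of `X` are regular. -/
def IsRegular (X : Sch ℤ) : Prop := ∀ x : X.left, IsRegularLocalRing (X.left.presheaf.stalk x)

/-- The assertion for all systems of bilinear equations with coefficients `1` and at most three terms in
every equation. -/
def ForThreeTermSystems (P : Sch ℤ → Prop) : Prop :=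
  ∀ (a b c : ℕ) (E : Fin c → Finset (Fin a × Fin b)), (∀ l, (E l).card ≤ 3) → P (sysS ℤ E)

/-- The assertion for all principal open subschemes `b_1 ⋯ b_r ≠ 0` of affine spaces over `ℤ`, where the
`b_l` are bilinear forms with coefficients `1` and at most three terms. -/
def ForPrincipalOpens (P : Sch ℤ → Prop) : Prop :=
  ∀ (a b : ℕ) (L : List (Finset (Fin a × Fin b))), (∀ E ∈ L, E.card ≤ 3) →
    P (aff ℤ (Localization.Away (L.map (few ℤ)).prod))

/-- **Theorem.** Let `A n i X = H^i(X_et, ℤ^c(n))` (`n < 0`).
(1) The groups are finitely generated for all arithmetic schemes `X`, all `n < 0` and all `i` (Q1) if and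
only if this is true for the affine schemes `X` given by systems of bilinear equations
`∑_{(i, j) ∈ E_l} x_i y_j = 0` with at most three terms in every equation, and if and only if it is true for
the principal open subschemes `b_1 ⋯ b_r ≠ 0` of affine spaces over `ℤ`, `b_l` bilinear forms of this kind
(smooth affine schemes over `ℤ`).
(2) With transfers for finite flat morphisms, finiteness of the `d`-torsion and de Jong's theorem on
alterations (all known), the statements (1) are equivalent to finite generation for all proper regular
arithmetic schemes.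
(3) The following are equivalent, if the groups of `Spec ℤ` are finitely generated (known): for every
arithmetic scheme `X` the groups are finitely generated for almost all `n < 0` and all `i`; the same for
the smooth cubic hypersurfaces `∑_{(i, j, l) ∈ H} x_i y_j z_l = 1` over `ℤ` of the finite sets `H` of
triples. -/
theorem result (A : Groups) (hA : IsEtMot A) :
    (((∀ X : Sch ℤ, FT True X → FinGen A X) ↔ ForThreeTermSystems (FinGen A)) ∧
      ((∀ X : Sch ℤ, FT True X → FinGen A X) ↔ ForPrincipalOpens (FinGen A))) ∧
    (Transfer A → FiniteTorsion A → Alterations IsRegular →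
      ((∀ X : Sch ℤ, FT True X → IsProper X.hom → IsRegular X → FinGen A X) ↔
        ForThreeTermSystems (FinGen A))) ∧
    (FinGen A (aff ℤ ℤ) →
      ((∀ X : Sch ℤ, FT True X → AlmostFinGen A X) ↔
        ∀ (a b c : ℕ) (H : Finset (Fin a × Fin b × Fin c)), AlmostFinGen A (tripS ℤ H))) := by
  have h1 : (∀ X : Sch ℤ, FT True X → FinGen A X) ↔ ForThreeTermSystems (FinGen A) :=
    three_iff short_int (clo_finGen hA)
  refine ⟨⟨h1, opens_iff short_int (clo2_finGen hA)⟩, fun hr ht halt => ?_, fun h0 => ?_⟩
  · rw [← h1]
    constructor
    · intro h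
      exact halt _ (alt_finGen hA hr ht) h
    · intro h X hX _ _
      exact h X hX
  · have hB := bnd_almost hA ⟨0, fun n _ i => h0 n i⟩
    constructor
    · intro h a b c H
      exact h _ (ft_aff True)
    · intro h X hX
      exact Pool.Agent.Q193.LT.universal_frac
        (Pool.Agent.Q193.LT.frac_of_surj fun x => ⟨x, rfl⟩) hB.toUni h X hX

end Pool.Agent.Results.MP_e93a6a_ag.FiniteGenerationUniversal
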