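import Pool.Agent.N876.CG.RelApp
import Pool.Agent.W484.CK.Main

/-!
# Finite generation of étale motivic cohomology in negative weights for products with cyclic coverings branched along hyperplanes

Let `κ` be a finite field with `q = c ^ f` elements, and `𝒱` a class of smooth projective varieties over
`κ`, closed under products, with Chow groups `A` with rational coefficients and a Weil cohomology theory
`H` (framework of helper492 and helper484: `TheoryData`, `IsChow`, `IsWeil`). Let `X_i` be varieties in
`𝒱`, of any dimensions `n_i`, which are models of cyclic coverings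

  `w ^ N_i = ∏ l_{i,k} (x) ^ a_{i,k}`

of projective spaces, branched along hyperplanes `l_{i,k} = 0` over `κ`, with exponents prime to `N_i`,
where `N_i` divides `q - 1` (`IsModel`, see the definitions: the cohomology is generated by the
classes of cycles and a part `T`, pure of weight `n_i`, without invariants under the covering
group, for which the trace formula holds). Let `N` be a common multiple of the `N_i`, and `λ` an
integer such that `IsSmall N λ` holds: for every nonempty finite set `I` of indices and all `j_i` not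
divisible by `N_i` (`i ∈ I`) there is a `u` prime to `N` with
`∑_{i ∈ I} weight X_i (u j_i) + λ / 2 < ∑_{i ∈ I} (n_i / 2 + 1)`; here `weight X j` is the mean over the
orbit `j, c j, …, c ^ (f - 1) j` of the sum of the fractional parts of `j a_k / N_i`.

Let `U` be **any** separated scheme of finite type over `κ` (open, or singular; for example a point), and
`Z` a variety in `𝒱` (for example a point). Fix an integer `e`, and for `X` in `𝒱` and integers `k` and `n`
(the dimension of the cycles) let
* `G k X n = H^{-k-2n}((X × U)_et, ℤ^c(n))`, the groups of the question for `X × U`,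
* `T_k^a(X) = G k X n ⊗ ℚ = CH_n(X × U, k) ⊗ ℚ` with `n = dim X + e - a`,
* `φ` the endomorphism `q ^ e (Fr_U)_*^(-1)` of `T_k`, where `Fr_U` is the Frobenius endomorphism of `U`
  (for `U` smooth of dimension `e` this is the pull-back by `Fr_U`).
On these groups act the correspondences between the varieties in `𝒱`, and the product of `φ` and the
pull-back by the Frobenius endomorphism of `X` is `q ^ a` on `T_k^a(X)`; these are the only properties of
the groups with rational coefficients which are used (`IsRelative`, `IsIntegralForm`). Moreover, for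
`n < 0`, the groups `H^i((X × U)_et, ℤ^c/m(n))` are finite, and for given `X`, `U`, `i`, `n` their orders
are bounded independently of `m` (theorems of Deligne, Gabber and de Jong: the weights are not zero
for `n < 0`); so the groups `G / m G` and `G[m]`, `G = G k X n`, are finite of bounded order
(`IsBounded`). Let `χ` be a polynomial with rational coefficients which is satisfied by `φ`. Such a
polynomial exists if the motive of `U` (with compact supports) is in the thick triangulated category
generated by the motives of products of curves, and then its roots are the numbers `q ^ e / α`, for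
eigenvalues `α` of the Frobenius on `H_c(U)`; examples are all varieties `U` with a stratification by open
subvarieties of varieties dominated by products of curves whose complements are again of this type.
We assume that the products `b` of the eigenvalues of the Frobenius on `H(Z)` and the complex roots of
`χ` are of the form `|b| ^ 2 = q ^ j` (theorem of Deligne) and that
* either `λ = 0` and the cyclotomic polynomial of order `N` is irreducible over the field generated by
  the numbers `b` (for given `Z` and `U` this is true for all `N` prime to the discriminant of this field),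
* or `Z × U` is of level `≤ λ`: the numbers `q ^ λ b / b̄` are algebraic integers. This is true if
  `dim Z + dim U ≤ λ`.
Finally the homologically trivial self-correspondences of degree zero of the products `V` of the `X_i`
and `Z` are assumed to be nilpotent (nothing of this kind is assumed for `U`); this holds if `Z` is a
point (or dominated by a product of curves) and the `X_i` are curves or have `n_i + 2` branch
hyperplanes in general position, by the theorem of Kimura and O'Sullivan.

**Theorem.** Let `V` be the product of `Z` and of finitely many of the `X_i` (pairwise different), and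
`d = dim V - dim Z`. Let `n < 0`.
* **The groups `H^i((V × U)_et, ℤ^c(n))` are finitely generated for all `i` if and only if the groups
  `H^i((Z × U)_et, ℤ^c(l))` are finitely generated for all `i` and all `l` with `n - d ≤ l ≤ n`.** More
  precisely this is true for each fixed `k = -i-2n`.
* So the question Q1 (all `n < 0`) for `V × U` is equivalent to Q1 for `Z × U`; if `Z` is a point, to Q1
  for `U`.
* If `V = X_i × V'`, then there are finitely many algebraic cycles `D j` on `X_i`, which do not depend
  on `U`, `k` or `e`, such that `T_k(V) = ⨁ D j × T_k(V')` for all `k`: a Künneth formula for the étale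
  motivic cohomology (Borel-Moore homology) of `V × U` with rational coefficients.

In particular the groups `H^i((V × U)_et, ℤ^c(n))`, `n < 0`, are finitely generated if `U` is a curve
(open, or singular) and `Z` is a point.

Examples. (a) Let `X_i` be curves `y ^ N_i = ∏ (x - x_{i,k})` with `N_i` factors, of genus
`(N_i - 1) (N_i - 2) / 2`, for different prime numbers `N_i` dividing `c - 1`. Then `weight X_i j` is the
residue of `j` modulo `N_i`, and `IsSmall N 0` holds for the product `N` of the `N_i` (take `u` with
`u j_i = 1` modulo `N_i`). (b) Let `X` be the variety `w ^ N = l_1 ⋯ l_N` of dimension `n = N - 2`, with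
`N` hyperplanes in general position, for a prime number `N` dividing `c - 1` (the resolutions are
Calabi-Yau varieties). The weight for `u j = 1` is `1`, so `IsSmall N λ` holds for all `λ < n`: the
theorem applies to **all schemes `U` of dimension smaller than `dim X`** with a polynomial `χ`.

The proof: by the theorem of Stickelberger on Gauss sums and the product formula no product of
eigenvalues of the Frobenius on the parts `T` of several `X_i` and on the cohomology of `Z × U` is a
power of `q`. So the intersection pairing on the algebraic classes of `X_i` is not degenerate; let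
`D j`, `E j` be dual systems of cycles on `X_i`, `p = ∑ E j × D j` the projector on `X_i × V'`, `P` a
polynomial with `P (F) H(X_i × V') ⊆ ∑ D j × H(V')`, and `Q (x)` the polynomial with the roots `q ^ a / ρ`,
where `χ (ρ) = 0`. Then `(1 - p) P (F)` is homologically trivial, hence nilpotent; a power of `Q (F)`
is zero on `T^a(X_i × V')`, and `P` and `Q` are prime to each other, so `1 - p` is zero on
`T^a(X_i × V')` (the idea to play the eigenvalues of Frobenius off against nilpotence is due to Soulé,
Geisser and Kahn). So the groups with rational coefficients of `V × U` vanish if and only if those of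
`Z × U` do. A finitely generated abelian group `G` such that the orders of the groups `G / m G` are bounded
is a torsion group, and a torsion group `G` such that the orders of the groups `G[m]` are bounded is
finite.

helper876; built on the library of the starting files (estimates of sums over hyperplane
arrangements by Gauss sums: helper528 and helpers 800, 883, 135, 563, 271, 540, 400, 999, 782, 605,
346; traces on eigenspaces: helper117; correspondences, nilpotence and the Kunneth formula: helpers
484, 492, 550; the idea to work relative to a scheme: helper156).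
-/

set_option autoImplicit false

open Finset Polynomial CategoryTheory AlgebraicGeometry

namespace Pool.Agent.Results.MP_e93a6a_ag.HyperplaneCoverings

open Pool.Agent.H914 Pool.Agent.H914.VarClass Pool.Agent.H914.VarClass.Obj Pool.Agent.W492.BB
  Pool.Agent.W484.CK

/-- A cyclic covering `w ^ N = ∏ l_k (x) ^ a_k` of the projective space of dimension `n`, and a root of
unity `z`. -/
structure Covering (κ : Type) [Field κ] : Type where
  N : ℕ
  n : ℕ
  s : ℕ
  l : Fin s → Fin (n + 1) → κ
  a : Fin s → ℕ
  z : κ

/-- `z` has order `N ≥ 2`, the exponents are prime to `N` and their sum is divisible by `N`. -/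
structure Covering.IsAdmissible {κ : Type} [Field κ] (X : Covering κ) : Prop where
  two_le : 2 ≤ X.N
  root : IsPrimitiveRoot X.z X.N
  coprime : ∀ k, (X.a k).Coprime X.N
  dvd : X.N ∣ ∑ k, X.a k

/-- The value of the form `∏ l_k ^ a_k` at a vector with coordinates in `L`. -/
def Covering.value {κ : Type} [Field κ] (X : Covering κ) (L : Type) [Field L] [Algebra κ L]
    (x : Fin (X.n + 1) → L) : L :=
  ∏ k, (∑ t, algebraMap κ L (X.l k t) * x t) ^ X.a k

/-- The number of vectors over `L` where the form is not zero. -/
noncomputable def Covering.openCount {κ : Type} [Field κ] (X : Covering κ) (L : Type) [Field L]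
    [Algebra κ L] : ℕ :=
  Set.ncard {x : Fin (X.n + 1) → L | X.value L x ≠ 0}

/-- The number of vectors over `L` where the form is not zero and its power with the exponent
`(|L| - 1) / N` is `z ^ i`. -/
noncomputable def Covering.fixCount {κ : Type} [Field κ] (X : Covering κ) (L : Type) [Field L]
    [Fintype L] [Algebra κ L] (i : ℕ) : ℕ :=
  Set.ncard {x : Fin (X.n + 1) → L | X.value L x ≠ 0 ∧
    (X.value L x) ^ ((Fintype.card L - 1) / X.N) = algebraMap κ L X.z ^ i}

/-- `T` is the part without invariants of the cohomology of degree `n` of a smooth projective model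
of the covering, with the Frobenius `Φ` and the generator `g` of the covering group. The trace
of `Φ ^ [L : κ] g ^ i` is up to the sign the difference of the number of fixed points over the open
set `∏ l_k ≠ 0` of projective space (`N` points over each point where the form has the power residue
symbol `z ^ i`) and of the number of the points of this open set. -/
structure IsCyclicCovering {κ : Type} [Field κ] (X : Covering κ) {K T : Type} [Field K]
    [AddCommGroup T] [Module K T] (Φ g : Module.End K T) : Prop where
  commute : Commute Φ g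
  order : g ^ X.N = 1
  invariants : ∀ t, g t = t → t = 0
  lefschetz : ∀ (L : Type) [Field L] [Fintype L] [Algebra κ L] (i : ℕ),
    ((Fintype.card L : K) - 1) *
        ((-1) ^ X.n * LinearMap.trace K T (Φ ^ Module.finrank κ L * g ^ i)) =
      (X.N : K) * (X.fixCount L i : K) - (X.openCount L : K)

/-- The mean over `j, c j, …, c ^ (f - 1) j` of the sum of the fractional parts of `j a_k / N`. -/
def Covering.weight {κ : Type} [Field κ] (X : Covering κ) (c f j : ℕ) : ℚ :=
  (∑ k, ∑ t ∈ range f, (((j * X.a k * c ^ t) % X.N : ℕ) : ℚ)) / (f * X.N)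

/-- The condition on the exponents. -/
def IsSmall {κ : Type} [Field κ] {ι : Type} (X : ι → Covering κ) (c f N lam : ℕ) : Prop :=
  ∀ I : Finset ι, I.Nonempty → ∀ j : ι → ℕ, (∀ i ∈ I, ¬ (X i).N ∣ j i) →
    ∃ u : ℕ, u.Coprime N ∧
      ∑ i ∈ I, (X i).weight c f (u * j i) + (lam : ℚ) / 2 < ∑ i ∈ I, (((X i).n : ℚ) / 2 + 1)

/-- The space `H` is generated by the subspace `P` (the classes of algebraic cycles) and a subspace `T`
which is stable under `Φ` (the Frobenius) and `g` (a generator of the covering group), `T` is the part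
without invariants (`IsCyclicCovering`), and pure of weight `n`. The complex numbers enter by an
embedding `τ` of the coefficient field. -/
def IsCoveringCohomology {κ : Type} [Field κ] [Fintype κ] (C : Covering κ) {K H : Type} [Field K]
    [AddCommGroup H] [Module K H] (P : Submodule K H) (Φ g : Module.End K H) (τ : K →+* ℂ) : Prop :=
  ∃ (T : Submodule K H) (hΦ : ∀ t ∈ T, Φ t ∈ T) (hg : ∀ t ∈ T, g t ∈ T), P ⊔ T = ⊤ ∧
    IsCyclicCovering C (Φ.restrict hΦ) (g.restrict hg) ∧
    ∀ α, Module.End.HasEigenvalue (Φ.restrict hΦ) α → ‖τ α‖ ^ 2 = (Fintype.card κ : ℝ) ^ C.n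

/-- The images of the eigenvalues of `Φ` under the embedding `τ` of the coefficient field. -/
def eigenvalues {K H : Type} [Field K] [AddCommGroup H] [Module K H] (Φ : Module.End K H)
    (τ : K →+* ℂ) : Set ℂ :=
  {b | ∃ β : K, Φ.HasEigenvalue β ∧ τ β = b}

/-- The conditions on a set `B` of complex numbers: they are algebraic with `|b| ^ 2 = q ^ j`, and
either `lam = 0` and the cyclotomic polynomial of order `N` is irreducible over the field generated
by `B`, or `B` is of level at most `lam`. -/
def IsGoodBase (q N lam : ℕ) (B : Set ℂ) : Prop :=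
  (∀ b ∈ B, IsAlgebraic ℚ b ∧ ∃ j : ℕ, ‖b‖ ^ 2 = (q : ℝ) ^ j) ∧
    ((lam = 0 ∧ Irreducible (cyclotomic N (IntermediateField.adjoin ℚ B))) ∨
      ∀ b ∈ B, IsIntegral ℤ ((q : ℂ) ^ lam * b / starRingEnd ℂ b))

/-- An endomorphism of an algebra as a linear map. -/
def ofHom {K H : Type} [Field K] [Ring H] [Algebra K H] (g : H →ₐ[K] H) : Module.End K H :=
  g.toLinearMap

/-- `IsCoveringCohomology` for endomorphisms of an algebra. -/
def IsCoveringAlgebra {κ : Type} [Field κ] [Fintype κ] (C : Covering κ) {K H : Type} [Field K]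
    [Ring H] [Algebra K H] (P : Submodule K H) (φ g : H →ₐ[K] H) (τ : K →+* ℂ) : Prop :=
  IsCoveringCohomology C P (ofHom φ) (ofHom g) τ

/-- The images of the eigenvalues of an endomorphism of an algebra. -/
def eigenvaluesOf {K H : Type} [Field K] [Ring H] [Algebra K H] (φ : H →ₐ[K] H) (τ : K →+* ℂ) :
    Set ℂ :=
  eigenvalues (ofHom φ) τ

/-- The images under `τ` of the products of the eigenvalues of an endomorphism of an algebra and
the roots of the polynomial `χ`. -/
def productsOf {K H : Type} [Field K] [CharZero K] [Ring H] [Algebra K H] (φ : H →ₐ[K] H)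
    (χ : ℚ[X]) (τ : K →+* ℂ) : Set ℂ :=
  {b | ∃ β ρ : K, (ofHom φ).HasEigenvalue β ∧ aeval ρ χ = 0 ∧ τ (β * ρ) = b}

/-- The field `κ` has `c ^ f` elements, the coverings are admissible, `N` is a common multiple of
their degrees, and `IsSmall` holds. -/
structure IsSmallSystem {κ : Type} [Field κ] [Fintype κ] {ι : Type} (C : ι → Covering κ)
    (c f N lam : ℕ) : Prop where
  card : Fintype.card κ = c ^ f
  admissible : ∀ i, (C i).IsAdmissible
  pos : 0 < N
  dvd : ∀ i, (C i).N ∣ N
  small : IsSmall C c f N lam

section geometry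

variable {κ : Type} [Field κ] {𝒱 : VarClass κ} {A : TheoryData.{0, 0, 0} 𝒱 ℚ} {K : Type} [Field K]

/-- The span of the classes of cycles on `X`. -/
def cycleSpan (H : WeilTheoryData.{0, 0, 0} A K) (X : 𝒱.Obj) : Submodule K (H.A X) :=
  Submodule.span K {a | ∃ (i : ℕ) (z : A.A X), A.Deg i z ∧ a = H.cl z}

/-- `X`, with the Frobenius endomorphism `φ`, is a model of the covering `C`, with a generator `g` of
the covering group. -/
def IsModel [Fintype κ] (C : Covering κ) (H : WeilTheoryData.{0, 0, 0} A K) {X : 𝒱.Obj}
    (φ : X ⟶ X) (τ : K →+* ℂ) : Prop :=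
  ∃ g : X ⟶ X, IsCoveringAlgebra C (cycleSpan H X) (H.pull φ) (H.pull g) τ

/-- There is a divisor on `X` whose power with the exponent `dim X` is not zero in the cohomology. -/
def IsPolarized (H : WeilTheoryData.{0, 0, 0} A K) (X : 𝒱.Obj) : Prop :=
  ∃ D : A.A X, A.Deg 1 D ∧ H.cl D ^ X.dim ≠ 0

/-- The product `X i₁ × (X i₂ × (⋯ × Z))`. -/
noncomputable def productOf {ι : Type} (X : ι → 𝒱.Obj) (Z : 𝒱.Obj) : List ι → 𝒱.Obj
  | [] => Z
  | i :: L => (X i).prod (productOf X Z L)

/-- The sum of the dimensions of the `X i`. -/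
def dimension {ι : Type} (X : ι → 𝒱.Obj) : List ι → ℕ
  | [] => 0
  | i :: L => (X i).dim + dimension X L

/-- `F` is the Frobenius endomorphism of the varieties over `κ`, the varieties `X i` are models of the
coverings, and `Z` and the polynomial `χ` satisfy `IsGoodBase`. -/
structure IsCoveringSystem [Fintype κ] [CharZero K] {ι : Type} (C : ι → Covering κ) (N lam : ℕ)
    (H : WeilTheoryData.{0, 0, 0} A K) (τ : K →+* ℂ) (F : ∀ X : 𝒱.Obj, X ⟶ X) (X : ι → 𝒱.Obj)
    (Z : 𝒱.Obj) (χ : ℚ[X]) : Prop where
  standard : IsStandard H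
  frobenius : ∀ X, IsFrobenius A (F X) (Fintype.card κ)
  product : ∀ X Y, F (X.prod Y) = prodMap (F X) (F Y)
  model : ∀ i, IsModel (C i) H (F (X i)) τ
  polarized : ∀ i, IsPolarized H (X i)
  algebraic : ∀ b ∈ eigenvaluesOf (H.pull (F Z)) τ, IsAlgebraic ℚ b
  ne_zero : χ.coeff 0 ≠ 0
  base : IsGoodBase (Fintype.card κ) N lam (productsOf (H.pull (F Z)) χ τ)

/-- The operation of the Frobenius endomorphism of `X` on the theory `T`. -/
noncomputable def frobOn (T : MotivicData A) (F : ∀ X : 𝒱.Obj, X ⟶ X) (X : 𝒱.Obj) (t : T.M X) :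
    T.M X :=
  T.app (A.down (Obj.lift (F X) (𝟙 X)) 1) t

/-- The maps `φ` commute with the operation of correspondences. -/
def IsCommuting (T : MotivicData A) (φ : ∀ X, T.M X →ₗ[ℚ] T.M X) : Prop :=
  ∀ {X Y : 𝒱.Obj} (Γ : A.A (X.prod Y)) (t : T.M X), φ Y (T.app Γ t) = T.app Γ (φ X t)

/-- The product of `φ` and the Frobenius endomorphism of `X` is `q ^ n` on `T^n(X)`. -/
def IsPower (T : MotivicData A) (φ : ∀ X, T.M X →ₗ[ℚ] T.M X) (F : ∀ X : 𝒱.Obj, X ⟶ X) (q : ℕ) :
    Prop :=
  ∀ {X : 𝒱.Obj} {n : ℤ} {t : T.M X}, T.Deg n t → frobOn T F X (φ X t) = (q : ℚ) ^ n • t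

/-- `χ (φ) t = 0`. -/
def IsKilled {M : Type} [AddCommGroup M] [Module ℚ M] (φ : M →ₗ[ℚ] M) (χ : ℚ[X]) (t : M) : Prop :=
  aeval φ χ t = 0

/-- `T` is a theory with correspondences with an endomorphism `φ` (the Frobenius endomorphism of a
scheme `U`) such that `φ` commutes with correspondences, and on `T^n(X)` the product of `φ` and the
Frobenius endomorphism of `X` is `q ^ n` and `χ (φ)` is zero. -/
structure IsRelative (T : MotivicData A) (φ : ∀ X, T.M X →ₗ[ℚ] T.M X) (F : ∀ X : 𝒱.Obj, X ⟶ X)
    (q : ℕ) (χ : ℚ[X]) : Prop where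
  motivic : IsMotivic T
  comm : IsCommuting T φ
  power : IsPower T φ F q
  root : ∀ {X : 𝒱.Obj} {n : ℤ} {t : T.M X}, T.Deg n t → IsKilled (φ X) χ t

/-- `G(X, n) ⊗ ℚ = T^a(X)`, `a = dim X + e - n`: there are homomorphisms `r` from `G(X, n)` to `T^a(X)`
whose kernels consist of torsion elements and such that every element of `T^a(X)` has a multiple in the
image. -/
def IsIntegralForm (T : MotivicData A) (e : ℤ) (G : 𝒱.Obj → ℤ → Type)
    [∀ X n, AddCommGroup (G X n)] : Prop :=
  ∀ X n, ∃ r : G X n →+ T.M X, (∀ x, T.Deg (X.dim + e - n) (r x)) ∧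
    (∀ x, r x = 0 → IsOfFinAddOrder x) ∧
    ∀ t : T.M X, T.Deg (X.dim + e - n) t → ∃ (k : ℕ) (x : G X n), 0 < k ∧ r x = k • t

/-- The groups `G / m G` and `G[m]` are finite and their orders are bounded. -/
def IsBounded (G : Type) [AddCommGroup G] : Prop :=
  ∃ C : ℕ, ∀ m : ℕ, 0 < m →
    ((nsmulAddMonoidHom m : G →+ G).range.index ≠ 0 ∧
      (nsmulAddMonoidHom m : G →+ G).range.index ≤ C) ∧
    (Finite (nsmulAddMonoidHom m : G →+ G).ker ∧ Nat.card (nsmulAddMonoidHom m : G →+ G).ker ≤ C)


/-- There are finitely many cycles `D j` on `X` such that for all theories `T` as in `IsRelative`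
(for all `φ` and all polynomials `χ` with roots in `B`) `T (X × V)` is the direct sum of the
`D j × T (V)`. -/
def Decomposes (F : ∀ X : 𝒱.Obj, X ⟶ X) (q : ℕ) (B : Set K) [CharZero K] (X V : 𝒱.Obj) : Prop :=
  ∃ (J : Type) (_ : Fintype J) (deg : J → ℕ) (D : J → A.A X), (∀ j, A.Deg (deg j) (D j)) ∧
    ∀ (T : MotivicData A) (φ : ∀ X, T.M X →ₗ[ℚ] T.M X) (χ : ℚ[X]), χ.coeff 0 ≠ 0 →
      (∀ ρ : K, aeval ρ χ = 0 → ρ ∈ B) → IsRelative T φ F q χ → HasKunneth T X V deg D

/-- The conclusions for the product `V` of the `X i` with `i ∈ L` and of `Z`. -/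
structure Conclusions (F : ∀ X : 𝒱.Obj, X ⟶ X) (q : ℕ) (B : Set K) [CharZero K] {ι : Type}
    (X : ι → 𝒱.Obj) (Z : 𝒱.Obj) (G : ℤ → 𝒱.Obj → ℤ → Type) [∀ k X n, AddCommGroup (G k X n)]
    (L : List ι) : Prop where
  generated : ∀ n : ℤ, n < 0 → ∀ k : ℤ, AddGroup.FG (G k (productOf X Z L) n) ↔
    ∀ l : ℤ, n - dimension X L ≤ l → l ≤ n → AddGroup.FG (G k Z l)
  decomposes : ∀ i, i ∉ L → Decomposes (A := A) F q B (X i) (productOf X Z L)

theorem fg_iff {G : Type} [AddCommGroup G] (h : IsBounded G) :
    AddGroup.FG G ↔ ∀ x : G, IsOfFinAddOrder x := by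
  obtain ⟨C, hC⟩ := h
  constructor
  · intro hfg x
    by_contra hx
    have hfin : Module.Finite ℤ G := Module.Finite.iff_addGroup_fg.2 hfg
    have hx' : (Submodule.torsion ℤ G).mkQ x ≠ 0 := by
      intro h0
      rw [Submodule.mkQ_apply, Submodule.Quotient.mk_eq_zero, Submodule.mem_torsion_iff] at h0
      obtain ⟨a, ha⟩ := h0
      apply hx
      rw [isOfFinAddOrder_iff_zsmul_eq_zero]
      exact ⟨a, nonZeroDivisors.coe_ne_zero a, ha⟩
    let b := Module.Free.chooseBasis ℤ (G ⧸ Submodule.torsion ℤ G)
    obtain ⟨i, hi⟩ : ∃ i, b.repr ((Submodule.torsion ℤ G).mkQ x) i ≠ 0 := by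
      by_contra hcon
      push Not at hcon
      exact hx' (b.repr.map_eq_zero_iff.1 (Finsupp.ext hcon))
    let c : G →ₗ[ℤ] ℤ := (Finsupp.lapply i) ∘ₗ b.repr.toLinearMap ∘ₗ (Submodule.torsion ℤ G).mkQ
    have hc : c x ≠ 0 := hi
    set N := (C.factorial : ℤ) with hN
    have hN0 : N ≠ 0 := by
      rw [hN]
      exact_mod_cast C.factorial_ne_zero
    have hdvd : ∀ m : ℕ, 0 < m → (m : ℤ) ∣ N * c x := by
      intro m hm
      obtain ⟨⟨h1, h2⟩, -⟩ := hC m hm
      have h3 : (nsmulAddMonoidHom m : G →+ G).range.index • x ∈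
          (nsmulAddMonoidHom m : G →+ G).range := by
        have : (nsmulAddMonoidHom m : G →+ G).range.FiniteIndex := ⟨h1⟩
        exact AddSubgroup.nsmul_index_mem _ x
      obtain ⟨k, hk⟩ := Nat.dvd_factorial (Nat.pos_of_ne_zero h1) h2
      obtain ⟨y, hy⟩ := h3
      have h4 : m • y = (nsmulAddMonoidHom m : G →+ G).range.index • x := hy
      refine ⟨k * c y, ?_⟩
      have h5 := congrArg c h4
      rw [map_nsmul, map_nsmul, nsmul_eq_mul, nsmul_eq_mul] at h5
      rw [hN, hk]
      push_cast
      linear_combination (-(k : ℤ)) * h5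
    have h6 := hdvd ((N * c x).natAbs + 1) (Nat.succ_pos _)
    have h7 := Int.eq_zero_of_dvd_of_natAbs_lt_natAbs h6 (by
      rw [Int.natAbs_natCast]
      exact Nat.lt_succ_self _)
    rcases mul_eq_zero.1 h7 with h | h
    · exact hN0 h
    · exact hc h
  · intro ht
    have hfin : Finite G := by
      by_contra hinf
      rw [not_finite_iff_infinite] at hinf
      obtain ⟨s, hs⟩ := Infinite.exists_subset_card_eq G (C + 1)
      let m := ∏ x ∈ s, addOrderOf x
      have hm : 0 < m := Finset.prod_pos fun x _ => (ht x).addOrderOf_pos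
      obtain ⟨-, hf, hcard⟩ := hC m hm
      have h1 : ∀ x ∈ s, x ∈ (nsmulAddMonoidHom m : G →+ G).ker := by
        intro x hx
        rw [AddMonoidHom.mem_ker]
        change m • x = 0
        exact addOrderOf_dvd_iff_nsmul_eq_zero.1 (Finset.dvd_prod_of_mem _ hx)
      have h2 : s.card ≤ Nat.card (nsmulAddMonoidHom m : G →+ G).ker := by
        let f : s → (nsmulAddMonoidHom m : G →+ G).ker := fun x => ⟨x.1, h1 x.1 x.2⟩
        have hf' : Function.Injective f := fun a b hab =>
          Subtype.ext (congrArg (fun z : (nsmulAddMonoidHom m : G →+ G).ker => (z : G)) hab)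
        have h3 := Nat.card_le_card_of_injective f hf'
        rwa [Nat.card_eq_fintype_card, Fintype.card_coe] at h3
      omega
    exact inferInstance

theorem torsion_iff {T : MotivicData A} {e : ℤ} {G : 𝒱.Obj → ℤ → Type}
    [∀ X n, AddCommGroup (G X n)] (h : IsIntegralForm T e G) (X : 𝒱.Obj) (n : ℤ) :
    (∀ x : G X n, IsOfFinAddOrder x) ↔ (toCorr T).gr X (X.dim + e - n) = ⊥ := by
  obtain ⟨r, hr0, hr1, hr2⟩ := h X n
  constructor
  · intro ht
    have h0 : ∀ t : T.M X, T.Deg (X.dim + e - n) t → t = 0 := by
      intro t htn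
      obtain ⟨k, x, hk, hx⟩ := hr2 t htn
      obtain ⟨m, hm, hmx⟩ := isOfFinAddOrder_iff_nsmul_eq_zero.1 (ht x)
      have h1 : m • k • t = 0 := by rw [← hx, ← map_nsmul, hmx, map_zero]
      rw [← Nat.cast_smul_eq_nsmul ℚ, ← Nat.cast_smul_eq_nsmul ℚ, smul_smul] at h1
      refine (smul_eq_zero.1 h1).resolve_left ?_
      exact mul_ne_zero (by exact_mod_cast hm.ne') (by exact_mod_cast hk.ne')
    exact (Submodule.eq_bot_iff _).2 fun t htn => h0 t htn
  · intro hv x
    exact hr1 x ((Submodule.eq_bot_iff _).1 hv _ (hr0 x))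

end geometry

/-- **Finite generation of étale motivic cohomology in negative weights for products with cyclic
coverings branched along hyperplanes.** -/
theorem result (c : ℕ) [Fact c.Prime] (κ : Type) [Field κ] [Fintype κ] [CharP κ c] {ι : Type}
    (C : ι → Covering κ) (f N lam : ℕ) (hC : IsSmallSystem C c f N lam)
    {𝒱 : VarClass κ} (A : TheoryData.{0, 0, 0} 𝒱 ℚ) [IsChow A] {K : Type} [Field K]
    [IsAlgClosed K] [CharZero K] (H : WeilTheoryData.{0, 0, 0} A K) [IsWeil H] (τ : K →+* ℂ)
    (F : ∀ X : 𝒱.Obj, X ⟶ X) (X : ι → 𝒱.Obj) (Z : 𝒱.Obj) (χ : ℚ[X])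
    (h : IsCoveringSystem C N lam H τ F X Z χ) (hnil : ∀ L, Nilpotence H (productOf X Z L))
    (T : ℤ → MotivicData A) (φ : ∀ k X, (T k).M X →ₗ[ℚ] (T k).M X)
    (hT : ∀ k, IsRelative (T k) (φ k) F (Fintype.card κ) χ) (e : ℤ)
    (G : ℤ → 𝒱.Obj → ℤ → Type) [∀ k X n, AddCommGroup (G k X n)]
    (hG : ∀ k, IsIntegralForm (T k) e (G k)) (hb : ∀ k X n, n < 0 → IsBounded (G k X n))
    (L : List ι) (hL : L.Nodup) :
    Conclusions (A := A) F (Fintype.card κ) {ρ : K | aeval ρ χ = 0} X Z G L := by
  obtain ⟨hf, hC, hN, hdN, hsmall⟩ := hC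
  obtain ⟨hstd, hfrob, hprod, hmodel, hpol, halg, hχ0, hbase⟩ := h
  have hfin := hstd.finite
  have hf0 : 0 < f := by
    rcases Nat.eq_zero_or_pos f with h | h
    · rw [h, pow_zero] at hf
      have := Fintype.one_lt_card (α := κ)
      omega
    · exact h
  choose g T' hσT hgT hT' hcov hpure using hmodel
  have hsmall' : ∀ I : Finset ι, I.Nonempty → Pool.Agent.N876.UV.SmallI c f N lam
      (fun i => (C i).N) (fun i => (C i).n) (fun i => (C i).s) (fun i => (C i).a) I := by
    intro I hI j hj
    obtain ⟨u, hu, hlt⟩ := hsmall I hI j hj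
    refine ⟨u, hu, Pool.Agent.N876.UV.weight_conv' hf0 hN hdN I
      (fun i => ∑ k, ∑ t ∈ range f, (u * j i * (C i).a k * c ^ t) % (C i).N) ?_⟩
    refine lt_of_le_of_lt (le_of_eq ?_) hlt
    congr 1
    refine sum_congr rfl fun i _ => ?_
    unfold Covering.weight
    push_cast
    rfl
  have hcov' : ∀ i, Pool.Agent.N876.TC.IsCov (C i).N (C i).l (C i).a (C i).z
      ((ofHom (H.pull (F (X i)))).restrict (hσT i)) ((ofHom (H.pull (g i))).restrict (hgT i)) :=
    fun i => ⟨(hcov i).commute, (hcov i).order, (hcov i).invariants,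
      fun L _ _ _ t => (hcov i).lefschetz L t⟩
  have hres : ∀ SZ, Pool.Agent.N876.FL.OtherOK τ (Fintype.card κ) N lam SZ →
      Pool.Agent.N876.FL.NoResF (Fintype.card κ : K)
        (fun i => {α | Module.End.HasEigenvalue
          ((ofHom (H.pull (F (X i)))).restrict (hσT i)) α}) SZ :=
    fun SZ hSZ => Pool.Agent.N876.FL.nores_cov hN (fun i => (hC i).two_le) hdN κ hf
      (fun i => (hC i).root) (fun i => (C i).l) (fun i => (C i).a) (fun i => (hC i).coprime) τ
      hcov' hsmall' hpure hSZ
  have htw : ∀ L : List ι, productOf X Z L = Pool.Agent.N876.CG.tw X Z L := by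
    intro L
    induction L with
    | nil => rfl
    | cons i L ih => rw [productOf, Pool.Agent.N876.CG.tw, ih]
  have hdim : ∀ L : List ι, dimension X L = Pool.Agent.N876.CG.dims X L := by
    intro L
    induction L with
    | nil => rfl
    | cons i L ih => rw [dimension, Pool.Agent.N876.CG.dims, ih]
  have hq0 : Fintype.card κ ≠ 0 := Fintype.card_ne_zero
  have hsys : Pool.Agent.N876.CG.Cr H F (Fintype.card κ) X Z
      (fun i => {α | Module.End.HasEigenvalue
          ((ofHom (H.pull (F (X i)))).restrict (hσT i)) α}) {ρ | aeval ρ χ = 0} :=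
    { std := isStandard_bridge hstd
      one_lt := Fintype.one_lt_card
      frob := fun X => isFrobenius_bridge (hfrob X)
      prod := hprod
      cg := fun i => ⟨T' i, hσT i, hT' i, fun α hα => hα⟩
      int := fun i α hα => Pool.Agent.N876.CG.int_cov hN (fun i => (hC i).two_le) hdN κ hf
        (fun i => (hC i).root) (fun i => (C i).l) (fun i => (C i).a) (fun i => (hC i).coprime) τ
        hcov' hsmall' hpure i α hα
      ne := fun i α hα h0 => by
        have h1 := hpure i α hα
        rw [h0, map_zero, norm_zero, zero_pow two_ne_zero] at h1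
        have h2 : (0 : ℝ) < (Fintype.card κ : ℝ) := by exact_mod_cast Nat.pos_of_ne_zero hq0
        exact (pow_pos h2 _).ne h1
      intZ := fun β hβ => Pool.Agent.N876.CG.integral_of_emb τ (halg _ ⟨β, hβ, rfl⟩)
      res := by
        have himg : (τ '' {γ | ∃ β ρ, (Pool.Agent.W484.CH.frob H (F Z)).HasEigenvalue β ∧
            ρ ∈ {ρ : K | aeval ρ χ = 0} ∧ γ = β * ρ}) = productsOf (H.pull (F Z)) χ τ := by
          ext b
          constructor
          · rintro ⟨_, ⟨β, ρ, hβ, hρ, rfl⟩, rfl⟩
            exact ⟨β, ρ, hβ, hρ, rfl⟩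
          · rintro ⟨β, ρ, hβ, hρ, rfl⟩
            exact ⟨_, ⟨β, ρ, hβ, hρ, rfl⟩, rfl⟩
        refine hres _ ⟨?_, ?_⟩
        · rintro _ ⟨β, ρ, hβ, hρ, rfl⟩
          exact hbase.1 _ ⟨β, ρ, hβ, hρ, rfl⟩
        · rcases hbase.2 with h | h
          · left
            rw [himg]
            exact h
          · right
            rintro _ ⟨β, ρ, hβ, hρ, rfl⟩
            exact h _ ⟨β, ρ, hβ, hρ, rfl⟩
      res1 := hres _ (Pool.Agent.N876.FL.otherOK_one τ _ _ _) }
  have hrel : ∀ (T : MotivicData A) (φ : ∀ X, T.M X →ₗ[ℚ] T.M X) (χ : ℚ[X]),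
      IsRelative T φ F (Fintype.card κ) χ →
      Pool.Agent.N876.CG.RelTheory (toCorr T) φ F (Fintype.card κ) χ := fun T φ χ hT =>
    { corr := toCorr_isCorrTheory hT.motivic
      comm := hT.comm
      power := fun X n t ht => ⟨1, by
        rw [pow_one, LinearMap.sub_apply, Module.End.mul_apply, LinearMap.smul_apply,
          Module.End.one_apply, sub_eq_zero]
        exact hT.power ht⟩
      poly := fun X n t ht => hT.root ht }
  have hnil' : ∀ (T : MotivicData A), IsMotivic T → ∀ L,
      Pool.Agent.N876.CG.NilT H (toCorr T) (Pool.Agent.N876.CG.tw X Z L) := fun T hT L =>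
    Pool.Agent.N876.CG.nilT_of (toCorr_isCorrTheory hT) (by
      rw [← htw L]; exact nilpotence_bridge (hnil L))
  have hdimV : (productOf X Z L).dim = dimension X L + Z.dim := by
    clear hL
    induction L with
    | nil => rw [productOf, dimension, zero_add]
    | cons i L ih => rw [productOf, dimension, Obj.dim_prod, ih, add_assoc]
  have hv : ∀ (k n : ℤ), (toCorr (T k)).gr (productOf X Z L) n = ⊥ ↔
      ∀ l : ℤ, n - dimension X L ≤ l → l ≤ n → (toCorr (T k)).gr Z l = ⊥ := by
    intro k n
    rw [htw L, hdim L]
    exact hsys.induct hpol (fun V n => (toCorr (T k)).gr V n = ⊥) (toCorr (T k)) (φ k) χ hχ0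
      (fun ρ hρ => hρ) (hrel (T k) (φ k) χ (hT k)) (hnil' (T k) (hT k).motivic)
      (fun i V J _ deg D E h1 h2 n =>
        Pool.Agent.N876.CG.vanish_deg h1 (toCorr_isCorrTheory (hT k).motivic) h2 n) hL n
  refine ⟨fun n hn k => ?_, fun i hi => ?_⟩
  · rw [fg_iff (hb k _ n hn), torsion_iff (hG k), hv, hdimV]
    push_cast
    constructor
    · intro h0 l hl1 hl2
      rw [fg_iff (hb k _ l (by omega)), torsion_iff (hG k)]
      exact h0 _ (by omega) (by omega)
    · intro h0 l hl1 hl2
      have h1 := h0 (Z.dim + e - l) (by omega) (by omega)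
      rw [fg_iff (hb k _ _ (by omega)), torsion_iff (hG k), sub_sub_cancel] at h1
      exact h1
  · rw [htw L]
    obtain ⟨J, hJ, deg, D, E, h1, h2, h3⟩ := hsys.step hi hL
    exact ⟨J, hJ, deg, D, h1.left, fun T φ χ hχ0 hχ hT =>
      h3 _ φ χ hχ0 hχ (hrel T φ χ hT) (hnil' T hT.motivic (i :: L))⟩

end Pool.Agent.Results.MP_e93a6a_ag.HyperplaneCoverings
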