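import Mathlib
import Pool.Agent.N214.TD.Blk

/-!
# Intersections of sums of forms in separate variables: stratification by products of curves

Let `K` be an algebraically closed field. For each `j = 1, …, N` let `G_j` be a form of degree `m > 0` in
`B_j` variables `y_j = (y_{j,1}, …)` (different `j` have different variables); the most important case
is that all `G_j` are binary forms, or forms in one variable. Let `X` be the projective scheme given by

* (A) two sums `∑ a_j G_j (y_j) = ∑ b_j G_j (y_j) = 0` with `a_i b_j ≠ a_j b_i` for `i ≠ j` (`N ≥ 4`), or by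
* (B) `N - n - 1` sums `∑_j w_j t_j ^ k G_j (y_j) = 0`, `0 ≤ k ≤ N - n - 2`, where the `t_j` are different and
  `w_j = ∏_{l ≠ j} (t_j - t_l)⁻¹` (here the `G_j` may also have different degrees `m_j`, in a weighted
  projective space).

These schemes are singular if some `B_j ≥ 2` and there are at least two equations (at the zeros of
`G_j` in the space of the variables of the block `j`).

**Theorem.** Let `C` be the curve (Kummer covering of the line) with the equations
`∑_j w_j t_j ^ k x_j ^ m = 0`, `0 ≤ k ≤ N - 3`. In case (A) there are such `t_j`, and `s_j ≠ 0`, and we put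
`n = N - 3`. Then `y` is a point of `X` at which not all `G_j` vanish if and only if there are points
`x_1, …, x_n` of `C` such that, with `p_j = ∏_i x_{i,j}`, for each `j`
* either `p_j ≠ 0` and `y_j = (p_j / s_j) v` for a vector `v` with `G_j (v) = 1` (`s_j = 1` in case (B)),
* or `p_j = 0` and `G_j (y_j) = 0`.

At most `n` of the `p_j` are zero. So `X` is the union of the set `G_1 = … = G_N = 0` and, for each set `S`
of at most `n` indices, of the image of `C_S × ∏_{j ∉ S} {G_j = 1} × ∏_{j ∈ S} {G_j = 0}`, where `C_S` is the
set of points of `C ^ n` with `p_j = 0` exactly for `j ∈ S`; it is a union of products of open curves and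
of points, since `p_j = 0` means that some `x_i` is one of the finitely many points of `C` over `t_j`.
If all `G_j` are binary forms or forms in one variable then `{G_j = 1}` is a curve or a finite set and
`{G_j = 0}` is a finite union of lines through the origin or the origin.

Application to the question (with theorems which are not formalised here). Let the `G_j` be binary
forms or forms in one variable over a finite field. Then the schemes `X` above, which have
arbitrary dimension and are singular, have a stratification by quotients of products of open curves by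
finite groups (first over a finite extension of the field). For `n < 0` the groups
`H ^ i (·, ℚ^c (n))` of the open curves and of their products vanish (Soulé, Geisser, Morin), so
they vanish for the quotients (transfer) and for `X` (localisation), and the groups
`H ^ i (X_et, ℤ^c (n))` are finitely generated, since the groups with finite coefficients are finite. So
the statement of the question is true for all these schemes.

helper214, with helper918, helper738 and helper301 (interpolation, product decomposition, normal
form of two diagonal forms).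
-/

set_option autoImplicit false

namespace Pool.Agent.Results.MP_e93a6a_ag.PencilsOfJoins

open Finset

/-- The weight `w_j = ∏_{l ≠ j} (t_j - t_l)⁻¹`. -/
def weight {K : Type} [Field K] {N : ℕ} (t : Fin N → K) (j : Fin N) : K :=
  ∏ l ∈ univ.erase j, (t j - t l)⁻¹

/-- `x` gives a point of the curve `C`: it is not zero and satisfies the `N - 2` equations
`∑_j w_j t_j ^ k x_j ^ (m_j) = 0`, `0 ≤ k ≤ N - 3`. -/
def OnC {K : Type} [Field K] {N : ℕ} (t : Fin N → K) (m : Fin N → ℕ) (x : Fin N → K) : Prop :=
  x ≠ 0 ∧ ∀ k : ℕ, k + 3 ≤ N → ∑ j, weight t j * t j ^ k * x j ^ m j = 0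

/-- Vectors `y = (y_1, …, y_N)` with `y_j` in the space of the variables of the block `j`. -/
abbrev Blocks (K : Type) {N : ℕ} (B : Fin N → ℕ) : Type := (j : Fin N) → Fin (B j) → K

/-- The value `G_j (y_j)`. -/
noncomputable def value {K : Type} [Field K] {N : ℕ} {B : Fin N → ℕ}
    (G : (j : Fin N) → MvPolynomial (Fin (B j)) K) (y : Blocks K B) (j : Fin N) : K :=
  MvPolynomial.eval (y j) (G j)

/-- `y` comes from the point `(x_1, …, x_n)` of `C ^ n`: with `p_j = ∏_i x_{i,j}`, for each `j` either
`p_j ≠ 0` and `y_j = (p_j / s_j) v` with `G_j (v) = 1`, or `p_j = 0` and `G_j (y_j) = 0`. -/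
def ComesFrom {K : Type} [Field K] {N n : ℕ} {B : Fin N → ℕ}
    (G : (j : Fin N) → MvPolynomial (Fin (B j)) K) (s : Fin N → K) (y : Blocks K B)
    (x : Fin n → Fin N → K) : Prop :=
  ∀ j, (∏ i, x i j ≠ 0 ∧ ∃ v, MvPolynomial.eval v (G j) = 1 ∧ y j = ((∏ i, x i j) / s j) • v) ∨
    (∏ i, x i j = 0 ∧ value G y j = 0)

theorem onC_iff {K : Type} [Field K] {N : ℕ} (t : Fin N → K) (m : Fin N → ℕ)
    (x : Fin N → K) : OnC t m x ↔ Pool.Agent.N214.TD.IsPoint t m 1 x := by
  constructor
  · intro h
    exact ⟨h.1, fun k hk => h.2 k (by omega)⟩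
  · intro h
    exact ⟨h.1, fun k hk => h.2 k (by omega)⟩

/-- **Main result.** -/
theorem result (K : Type) [Field K] [IsAlgClosed K] (N : ℕ) (B : Fin N → ℕ) :
    (∀ (m : ℕ) (G : (j : Fin N) → MvPolynomial (Fin (B j)) K) (a b : Fin N → K), 0 < m → 4 ≤ N →
      (∀ j, (G j).IsHomogeneous m) → (∀ i j, i ≠ j → a i * b j ≠ a j * b i) →
      ∃ t s : Fin N → K, Function.Injective t ∧ (∀ j, s j ≠ 0) ∧ ∀ y : Blocks K B,
        (((∑ j, a j * value G y j = 0 ∧ ∑ j, b j * value G y j = 0) ∧ ∃ j, value G y j ≠ 0) ↔
          ∃ x : Fin (N - 3) → Fin N → K, (∀ i, OnC t (fun _ => m) (x i)) ∧ ComesFrom G s y x)) ∧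
    (∀ (n : ℕ) (m : Fin N → ℕ) (t : Fin N → K) (G : (j : Fin N) → MvPolynomial (Fin (B j)) K),
      1 ≤ n → n < N → (∀ j, 0 < m j) → Function.Injective t → (∀ j, (G j).IsHomogeneous (m j)) →
      ∀ y : Blocks K B,
        ((∀ k : ℕ, k + n + 2 ≤ N → ∑ j, weight t j * t j ^ k * value G y j = 0) ∧
            ∃ j, value G y j ≠ 0) ↔
          ∃ x : Fin n → Fin N → K, (∀ i, OnC t m (x i)) ∧ ComesFrom G (fun _ => 1) y x) := by
  refine ⟨?_, ?_⟩
  · intro m G a b hm hN hG hab
    obtain ⟨t, s, ht, hs, hts⟩ := Pool.Agent.N214.TD.hNOR K N m a b hm.ne' (by omega) hab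
    refine ⟨t, s, ht, hs, fun y => ?_⟩
    -- pass to the vectors `s_j y_j`
    have hb := Pool.Agent.N214.TD.blocks ht (m := fun _ => m) (B := B) (fun _ => hm.ne')
      (n := N - 3) (by omega) (by omega) hG (fun j => s j • y j)
    have hv : ∀ j, MvPolynomial.eval (s j • y j) (G j) = s j ^ m * value G y j := fun j =>
      Pool.Agent.N214.TD.eval_smul (hG j) (s j) (y j)
    have hz : ∃ z : Fin N → K, ∀ j, z j ^ m = value G y j := by
      have h : ∀ j, ∃ z : K, z ^ m = value G y j := fun j =>
        IsAlgClosed.exists_pow_nat_eq _ hm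
      choose z hz using h
      exact ⟨z, hz⟩
    obtain ⟨z, hz⟩ := hz
    have hcond : ((∑ j, a j * value G y j = 0 ∧ ∑ j, b j * value G y j = 0) ∧
        ∃ j, value G y j ≠ 0) ↔
        ((∀ k : ℕ, k + (N - 3) + 1 < N → ∑ j, Pool.Agent.N214.TD.wt t j * t j ^ k *
          MvPolynomial.eval (s j • y j) (G j) = 0) ∧
          ∃ j, MvPolynomial.eval (s j • y j) (G j) ≠ 0) := by
      refine and_congr ?_ ?_
      · have h1 := hts z
        simp only [hz] at h1
        rw [h1]
        constructor
        · intro h k hk
          rw [← h k (by omega)]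
          refine Finset.sum_congr rfl fun j _ => ?_
          rw [hv j, mul_pow, hz j]
        · intro h k hk
          rw [← h k (by omega)]
          refine Finset.sum_congr rfl fun j _ => ?_
          rw [hv j, mul_pow, hz j]
      · refine exists_congr fun j => ?_
        rw [hv j]
        constructor
        · intro h
          exact mul_ne_zero (pow_ne_zero _ (hs j)) h
        · intro h
          exact right_ne_zero_of_mul h
    rw [hcond, hb]
    refine exists_congr fun x => and_congr (forall_congr' fun i => (onC_iff t _ _).symm) ?_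
    refine forall_congr' fun j => or_congr (and_congr Iff.rfl ?_) (and_congr Iff.rfl ?_)
    · refine exists_congr fun v => and_congr Iff.rfl ?_
      constructor
      · intro h
        have : y j = (s j)⁻¹ • (s j • y j) := by
          rw [smul_smul, inv_mul_cancel₀ (hs j), one_smul]
        rw [this, h, smul_smul]
        congr 1
        field_simp
      · intro h
        rw [h, smul_smul]
        congr 1
        field_simp [hs j]
    · rw [hv j]
      constructor
      · intro h
        exact (mul_eq_zero.1 h).resolve_left (pow_ne_zero _ (hs j))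
      · intro h
        rw [h, mul_zero]
  · intro n m t G hn hnN hm ht hG y
    have hb := Pool.Agent.N214.TD.blocks ht (m := m) (B := B) (fun j => (hm j).ne') hn hnN hG y
    constructor
    · rintro ⟨h1, h2⟩
      obtain ⟨x, hx, hxy⟩ := hb.1 ⟨fun k hk => h1 k (by omega), h2⟩
      refine ⟨x, fun i => (onC_iff t m _).2 (hx i), fun j => ?_⟩
      rcases hxy j with ⟨h, v, hv, hy⟩ | h
      · exact Or.inl ⟨h, v, hv, by rw [hy, div_one]⟩
      · exact Or.inr h
    · rintro ⟨x, hx, hxy⟩
      obtain ⟨h1, h2⟩ := hb.2 ⟨x, fun i => (onC_iff t m _).1 (hx i), fun j => by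
        rcases hxy j with ⟨h, v, hv, hy⟩ | h
        · exact Or.inl ⟨h, v, hv, by rw [hy, div_one]⟩
        · exact Or.inr h⟩
      exact ⟨fun k hk => h1 k (by omega), h2⟩

end Pool.Agent.Results.MP_e93a6a_ag.PencilsOfJoins
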